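import Mathlib

/-!
# MP_a20134_al: rational matrices on the boundary of the `5 × 5` completely positive cone all of
whose square factorizations are irrational

`S_n` is the space of real symmetric `n × n` matrices with the Euclidean topology, `CP_n` is the
completely positive cone and `DNN_n` the doubly nonnegative cone.  The circulant matrix `A` with
first row `(8, 5, 1, 1, 5)` is an integer matrix in `∂CP_5 ∩ int DNN_5` (it is orthogonal to the
Horn matrix).  It has square factorizations `A = B Bᵀ` with `B ≥ 0`, but in every one of them every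
column `b_j` has an entry whose square is `(3 ± √5) / 2`; so no `b_j b_jᵀ` is rational.  There are
two square factorizations which are not related by a permutation of the columns.

Second example (orthogonal to a copositive matrix of Hildebrand type): an integer matrix in
`∂CP_5 ∩ int DNN_5` whose square factorization is unique up to column permutations and is rational
in sense (i) but not in sense (ii).
-/

set_option autoImplicit false

namespace Pool.Agent.Results.MP_a20134_al.IrrationalSquareFactorizations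

open Matrix

/-- The space of real symmetric `n × n` matrices (with the topology of entrywise convergence). -/
abbrev Sym (n : ℕ) := {A : Matrix (Fin n) (Fin n) ℝ // A.IsSymm}

/-- The completely positive cone: all `B Bᵀ` with `B` an `n × m` matrix with nonnegative entries,
for some `m ≥ 1`. -/
def CP (n : ℕ) : Set (Sym n) :=
  {A | ∃ m : ℕ, 1 ≤ m ∧ ∃ B : Matrix (Fin n) (Fin m) ℝ, (∀ i j, 0 ≤ B i j) ∧ A.1 = B * Bᵀ}

/-- The doubly nonnegative cone: positive semidefinite symmetric matrices with nonnegative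
entries. -/
def DNN (n : ℕ) : Set (Sym n) :=
  {A | (∀ x : Fin n → ℝ, 0 ≤ ∑ i, ∑ j, x i * A.1 i j * x j) ∧ ∀ i j, 0 ≤ A.1 i j}

/-- `B` is a square factorization of `A`: a `5 × 5` matrix with nonnegative entries and
`A = B Bᵀ`. -/
def IsSquareFactorization (A : Sym 5) (B : Matrix (Fin 5) (Fin 5) ℝ) : Prop :=
  (∀ i j, 0 ≤ B i j) ∧ A.1 = B * Bᵀ

/-- Sense (i): every column `b` of `B` satisfies `b bᵀ = q v vᵀ` with a rational number `q ≥ 0`
and a rational vector `v`. -/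
def RationalI (B : Matrix (Fin 5) (Fin 5) ℝ) : Prop :=
  ∀ j, ∃ (q : ℚ) (v : Fin 5 → ℚ), 0 ≤ q ∧ ∀ i k, B i j * B k j = (q : ℝ) * ((v i : ℝ) * (v k : ℝ))

/-- Sense (ii): all entries of `B` are rational. -/
def RationalII (B : Matrix (Fin 5) (Fin 5) ℝ) : Prop :=
  ∀ i j, ∃ q : ℚ, B i j = (q : ℝ)

/-! ### The Horn form -/

/-- The Horn quadratic form. -/
def horn (x : Fin 5 → ℝ) : ℝ :=
  ∑ i, (x i * x i - 2 * (x i * x (i + 1)) + 2 * (x i * x (i + 2)))

lemma horn_eq (x : Fin 5 → ℝ) (j : Fin 5) :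
    horn x = (x j - x (j + 1) + x (j + 2) + x (j + 3) - x (j + 4)) ^ 2 +
      4 * (x (j + 1) * x (j + 3)) + 4 * (x (j + 2) * (x (j + 4) - x (j + 3))) := by
  fin_cases j <;> simp [horn, Fin.sum_univ_five] <;> ring

lemma exists_le (x : Fin 5 → ℝ) : ∃ j : Fin 5, x (j + 3) ≤ x (j + 4) := by
  by_contra h
  push Not at h
  have h0 := h 0; have h1 := h 1; have h2 := h 2; have h3 := h 3; have h4 := h 4
  simp at h0 h1 h2 h3 h4
  linarith

lemma horn_nonneg (x : Fin 5 → ℝ) (hx : ∀ i, 0 ≤ x i) : 0 ≤ horn x := by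
  obtain ⟨j, hj⟩ := exists_le x
  rw [horn_eq x j]
  have h1 := mul_nonneg (hx (j + 1)) (hx (j + 3))
  have h2 := mul_nonneg (hx (j + 2)) (sub_nonneg.2 hj)
  positivity

/-- The zeros of the Horn form in the nonnegative orthant. -/
lemma horn_zero (x : Fin 5 → ℝ) (hx : ∀ i, 0 ≤ x i) (h : horn x = 0) :
    ∃ j : Fin 5, x (j + 2) = 0 ∧ x (j + 3) = 0 ∧ x j = x (j + 1) + x (j + 4) := by
  obtain ⟨j, hj⟩ := exists_le x
  rw [horn_eq x j] at h
  have h1 := mul_nonneg (hx (j + 1)) (hx (j + 3))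
  have h2 := mul_nonneg (hx (j + 2)) (sub_nonneg.2 hj)
  have h3 := sq_nonneg (x j - x (j + 1) + x (j + 2) + x (j + 3) - x (j + 4))
  have e1 : x (j + 1) * x (j + 3) = 0 := by linarith
  have e2 : x (j + 2) * (x (j + 4) - x (j + 3)) = 0 := by linarith
  have e3 : x j - x (j + 1) + x (j + 2) + x (j + 3) - x (j + 4) = 0 := by
    have : (x j - x (j + 1) + x (j + 2) + x (j + 3) - x (j + 4)) ^ 2 = 0 := by linarith
    exact pow_eq_zero_iff (two_ne_zero) |>.1 this
  have p0 := hx j; have p1 := hx (j + 1); have p2 := hx (j + 2); have p3 := hx (j + 3)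
  have p4 := hx (j + 4)
  have a1 : j + 1 + 1 = j + 2 := by fin_cases j <;> rfl
  have a2 : j + 1 + 2 = j + 3 := by fin_cases j <;> rfl
  have a3 : j + 1 + 3 = j + 4 := by fin_cases j <;> rfl
  have a4 : j + 1 + 4 = j := by fin_cases j <;> rfl
  have b1 : j + 4 + 1 = j := by fin_cases j <;> rfl
  have b2 : j + 4 + 2 = j + 1 := by fin_cases j <;> rfl
  have b3 : j + 4 + 3 = j + 2 := by fin_cases j <;> rfl
  have b4 : j + 4 + 4 = j + 3 := by fin_cases j <;> rfl
  by_cases c2 : x (j + 2) = 0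
  · by_cases c3 : x (j + 3) = 0
    · exact ⟨j, c2, c3, by linarith⟩
    · have c1 : x (j + 1) = 0 := by
        rcases mul_eq_zero.1 e1 with h | h
        · exact h
        · exact absurd h c3
      refine ⟨j + 4, ?_, ?_, ?_⟩
      · rw [b2]; exact c1
      · rw [b3]; exact c2
      · rw [b1, b4]; linarith
  · have c4 : x (j + 4) = x (j + 3) := by
      rcases mul_eq_zero.1 e2 with h | h
      · exact absurd h c2
      · linarith
    rcases mul_eq_zero.1 e1 with c1 | c3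
    · exfalso
      apply c2
      linarith
    · refine ⟨j + 1, ?_, ?_, ?_⟩
      · rw [a2]; exact c3
      · rw [a3]; linarith
      · rw [a1, a4]; linarith

/-! ### The matrix -/

/-- The circulant matrix with first row `(8, 5, 1, 1, 5)`. -/
def M0 : Matrix (Fin 5) (Fin 5) ℝ :=
  !![8, 5, 1, 1, 5; 5, 8, 5, 1, 1; 1, 5, 8, 5, 1; 1, 1, 5, 8, 5; 5, 1, 1, 5, 8]

lemma M0_symm : M0.IsSymm := by
  ext i j
  fin_cases i <;> fin_cases j <;> simp [M0]

/-- The matrix as a symmetric matrix. -/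
def A0 : Sym 5 := ⟨M0, M0_symm⟩

/-- The pairing of a symmetric matrix with the Horn matrix. -/
def pair (X : Matrix (Fin 5) (Fin 5) ℝ) : ℝ :=
  ∑ i, (X i i - 2 * X i (i + 1) + 2 * X i (i + 2))

lemma pair_mul {m : ℕ} (B : Matrix (Fin 5) (Fin m) ℝ) :
    pair (B * Bᵀ) = ∑ k, horn (fun i => B i k) := by
  unfold pair horn
  rw [Finset.sum_comm]
  refine Finset.sum_congr rfl fun i _ => ?_
  simp only [Matrix.mul_apply, Matrix.transpose_apply]
  rw [Finset.sum_add_distrib, Finset.sum_sub_distrib, Finset.mul_sum, Finset.mul_sum]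

lemma pair_nonneg {A : Sym 5} (hA : A ∈ CP 5) : 0 ≤ pair A.1 := by
  obtain ⟨m, -, B, hB, h⟩ := hA
  rw [h, pair_mul]
  exact Finset.sum_nonneg fun k _ => horn_nonneg _ fun i => hB i k

lemma pair_M0 : pair M0 = 0 := by
  simp [pair, M0, Fin.sum_univ_five]
  norm_num

/-! ### A general square factorization -/

lemma cols {B : Matrix (Fin 5) (Fin 5) ℝ} (h : IsSquareFactorization A0 B) (k : Fin 5) :
    ∃ j : Fin 5, B (j + 2) k = 0 ∧ B (j + 3) k = 0 ∧ B j k = B (j + 1) k + B (j + 4) k := by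
  have h1 : ∑ k, horn (fun i => B i k) = 0 := by
    rw [← pair_mul, ← h.2]
    exact pair_M0
  have h2 := (Finset.sum_eq_zero_iff_of_nonneg
    (fun k _ => horn_nonneg (fun i => B i k) fun i => h.1 i k)).1 h1 k (Finset.mem_univ k)
  exact horn_zero _ (fun i => h.1 i k) h2

lemma ne_type {x : Fin 5 → ℝ} {j t : Fin 5} (h2 : x (j + 2) = 0) (h3 : x (j + 3) = 0)
    (ht : t ≠ j) : x (t + 4) * x (t + 1) = 0 := by
  fin_cases j <;> fin_cases t <;> simp_all

/-- The columns can be permuted so that column `t` is supported on `t - 1, t, t + 1`. -/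
lemma reorder {B : Matrix (Fin 5) (Fin 5) ℝ} (h : IsSquareFactorization A0 B) :
    ∃ e : Equiv.Perm (Fin 5), ∀ t, B (t + 2) (e t) = 0 ∧ B (t + 3) (e t) = 0 ∧
      B t (e t) = B (t + 1) (e t) + B (t + 4) (e t) := by
  choose f hf using cols h
  have hsurj : Function.Surjective f := by
    intro t
    by_contra hne
    push Not at hne
    have h1 : A0.1 (t + 4) (t + 1) = 0 := by
      rw [h.2, Matrix.mul_apply]
      refine Finset.sum_eq_zero fun k _ => ?_
      rw [Matrix.transpose_apply]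
      exact ne_type (x := fun i => B i k) (hf k).1 (hf k).2.1 (hne k).symm
    have h2 : A0.1 (t + 4) (t + 1) = 1 := by
      fin_cases t <;> simp [A0, M0]
    linarith
  have hbij : Function.Bijective f := (Finite.injective_iff_surjective.2 hsurj).bijective_of_finite
  let F := Equiv.ofBijective f hbij
  refine ⟨F.symm, fun t => ?_⟩
  have := hf (F.symm t)
  have e : f (F.symm t) = t := F.apply_symm_apply t
  rw [e] at this
  exact this

lemma alg {u0 u1 u2 u3 u4 : ℝ} (h0 : u0 * u1 = 3 * u0 - 1) (h1 : u1 * u2 = 3 * u1 - 1)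
    (h2 : u2 * u3 = 3 * u2 - 1) (h3 : u3 * u4 = 3 * u3 - 1) (h4 : u4 * u0 = 3 * u4 - 1) :
    u0 ^ 2 - 3 * u0 + 1 = 0 := by
  have k2 : u2 * (3 * u0 - 1) = 8 * u0 - 3 := by
    linear_combination (-u2) * h0 + u0 * h1 + 3 * h0
  have k3 : u3 * (8 * u0 - 3) = 21 * u0 - 8 := by
    linear_combination (-u3) * k2 + (3 * u0 - 1) * h2 + 3 * k2
  have k4 : u4 * (21 * u0 - 8) = 55 * u0 - 21 := by
    linear_combination (-u4) * k3 + (8 * u0 - 3) * h3 + 3 * k3
  have k5 : u0 * (55 * u0 - 21) = 144 * u0 - 55 := by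
    linear_combination (-u0) * k4 + (21 * u0 - 8) * h4 + 3 * k4
  linarith

lemma step {a c a' c' : ℝ} (h1 : a * c = 1) (h2 : a' * c' = 1)
    (h3 : (c + a) * c + a' * (c' + a') = 5) :
    (a * a) * (a' * a') = 3 * (a * a) - 1 := by
  have h4 : c * c + a' * a' = 3 := by linear_combination h3 - h1 - h2
  linear_combination (a * a) * h4 - (a * c + 1) * h1

/-- The squares of the entries. -/
lemma quad {B : Matrix (Fin 5) (Fin 5) ℝ} (h : IsSquareFactorization A0 B) :
    ∃ e : Equiv.Perm (Fin 5), ∀ t, (B (t + 4) (e t) * B (t + 4) (e t)) ^ 2 -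
      3 * (B (t + 4) (e t) * B (t + 4) (e t)) + 1 = 0 := by
  obtain ⟨e, he⟩ := reorder h
  refine ⟨e, ?_⟩
  have hA : ∀ i l, A0.1 i l = ∑ t, B i (e t) * B l (e t) := by
    intro i l
    rw [h.2, Matrix.mul_apply]
    simp only [Matrix.transpose_apply]
    exact (Equiv.sum_comp e (fun k => B i k * B l k)).symm
  have e0 := he 0; have e1 := he 1; have e2 := he 2; have e3 := he 3; have e4 := he 4
  simp at e0 e1 e2 e3 e4
  have q0 := hA 0 1; have q1 := hA 1 2; have q2 := hA 2 3; have q3 := hA 3 4; have q4 := hA 4 0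
  have r0 := hA 4 1; have r1 := hA 0 2; have r2 := hA 1 3; have r3 := hA 2 4; have r4 := hA 3 0
  simp [A0, M0, Fin.sum_univ_five] at q0 q1 q2 q3 q4 r0 r1 r2 r3 r4
  obtain ⟨z0, w0, s0⟩ := e0
  obtain ⟨z1, w1, s1⟩ := e1
  obtain ⟨z2, w2, s2⟩ := e2
  obtain ⟨z3, w3, s3⟩ := e3
  obtain ⟨z4, w4, s4⟩ := e4
  simp only [z0, w0, s0, z1, w1, s1, z2, w2, s2, z3, w3, s3, z4, w4, s4, zero_mul, mul_zero,
    add_zero, zero_add] at q0 q1 q2 q3 q4 r0 r1 r2 r3 r4
  have t0 : B 4 (e 0) * B 1 (e 0) = 1 := r0.symm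
  have t1 : B 0 (e 1) * B 2 (e 1) = 1 := r1.symm
  have t2 : B 1 (e 2) * B 3 (e 2) = 1 := r2.symm
  have t3 : B 2 (e 3) * B 4 (e 3) = 1 := r3.symm
  have t4 : B 3 (e 4) * B 0 (e 4) = 1 := r4.symm
  have v0 := step t0 t1 (by linarith)
  have v1 := step t1 t2 (by linarith)
  have v2 := step t2 t3 (by linarith)
  have v3 := step t3 t4 (by linarith)
  have v4 := step t4 t0 (by linarith)
  intro t
  fin_cases t
  · exact alg v0 v1 v2 v3 v4
  · exact alg v1 v2 v3 v4 v0
  · exact alg v2 v3 v4 v0 v1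
  · exact alg v3 v4 v0 v1 v2
  · exact alg v4 v0 v1 v2 v3

lemma irrational_of_quad {u : ℝ} (h : u ^ 2 - 3 * u + 1 = 0) : Irrational u := by
  rintro ⟨q, rfl⟩
  have h1 : ((2 * q - 3) ^ 2 : ℚ) = 5 := by
    have h2 : ((2 * (q : ℝ) - 3) ^ 2) = 5 := by linear_combination 4 * h
    exact_mod_cast h2
  have h3 : Irrational (Real.sqrt 5) := Nat.Prime.irrational_sqrt (by norm_num)
  apply h3
  refine ⟨|2 * q - 3|, ?_⟩
  symm
  rw [Real.sqrt_eq_iff_mul_self_eq (by norm_num) (by positivity)]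
  have h4 : (5 : ℚ) = |2 * q - 3| * |2 * q - 3| := by
    rw [← h1, abs_mul_abs_self]
    ring
  exact_mod_cast h4

/-! ### Two square factorizations -/

/-- A nonnegative matrix with `F s (F s)ᵀ = M0` if `s ^ 2 = 5`. -/
noncomputable def F (s : ℝ) : Matrix (Fin 5) (Fin 5) ℝ :=
  !![s, (s + 1) / 2, 0, 0, (s - 1) / 2;
     (s - 1) / 2, s, (s + 1) / 2, 0, 0;
     0, (s - 1) / 2, s, (s + 1) / 2, 0;
     0, 0, (s - 1) / 2, s, (s + 1) / 2;
     (s + 1) / 2, 0, 0, (s - 1) / 2, s]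

lemma F_mul (s : ℝ) (hs : s * s = 5) : M0 = F s * (F s)ᵀ := by
  ext i j
  fin_cases i <;> fin_cases j <;>
    simp [M0, F, Matrix.mul_apply, Fin.sum_univ_five] <;> nlinarith

lemma F_mul' (s : ℝ) (hs : s * s = 5) : M0 = (F s)ᵀ * ((F s)ᵀ)ᵀ := by
  ext i j
  fin_cases i <;> fin_cases j <;>
    simp [M0, F, Matrix.mul_apply, Fin.sum_univ_five] <;> nlinarith

lemma F_nonneg (s : ℝ) (hs : 1 ≤ s) (i j : Fin 5) : 0 ≤ F s i j := by
  fin_cases i <;> fin_cases j <;> simp [F] <;> linarith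

lemma F_perm (s : ℝ) (hs : 1 < s) (σ : Equiv.Perm (Fin 5)) : (F s)ᵀ ≠ (F s).submatrix id σ := by
  intro h
  have h0 : F s 0 0 = F s 0 (σ 0) := by
    have := congrFun (congrFun h 0) 0
    simpa using this
  have h1 : F s 0 1 = F s 1 (σ 0) := by
    have := congrFun (congrFun h 1) 0
    simpa using this
  have h2 : σ 0 = 0 := by
    generalize σ 0 = k at h0
    fin_cases k
    · rfl
    all_goals
      exfalso
      simp [F] at h0
      linarith
  rw [h2] at h1
  simp [F] at h1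
  linarith

/-! ### Boundary and interior -/

lemma A0_mem : A0 ∈ CP 5 := by
  have h5 : Real.sqrt 5 * Real.sqrt 5 = 5 := Real.mul_self_sqrt (by norm_num)
  have h1 : 1 ≤ Real.sqrt 5 := by
    rw [show (1 : ℝ) = Real.sqrt 1 by simp]
    exact Real.sqrt_le_sqrt (by norm_num)
  exact ⟨5, by norm_num, F (Real.sqrt 5), F_nonneg _ h1, F_mul _ h5⟩

/-- The matrices `A0 - t I`. -/
def path (t : ℝ) : Sym 5 := ⟨M0 - t • (1 : Matrix (Fin 5) (Fin 5) ℝ), by
  have h1 : (t • (1 : Matrix (Fin 5) (Fin 5) ℝ)).IsSymm := by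
    ext i j
    simp [Matrix.one_apply, eq_comm]
  exact M0_symm.sub h1⟩

lemma continuous_path : Continuous path := by
  unfold path
  apply Continuous.subtype_mk
  exact continuous_const.sub (continuous_id.smul continuous_const)

lemma pair_path (t : ℝ) : pair (path t).1 = - 5 * t := by
  have : (path t).1 = M0 - t • (1 : Matrix (Fin 5) (Fin 5) ℝ) := rfl
  rw [this]
  simp [pair, M0, Fin.sum_univ_five]
  ring

lemma A0_frontier : A0 ∈ frontier (CP 5) := by
  refine ⟨subset_closure A0_mem, fun hint => ?_⟩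
  have h0 : path 0 = A0 := by
    apply Subtype.ext
    simp [path, A0]
  have h1 : path ⁻¹' (CP 5) ∈ nhds (0 : ℝ) := by
    apply continuous_path.continuousAt
    rw [h0]
    exact mem_interior_iff_mem_nhds.1 hint
  obtain ⟨ε, hε, hb⟩ := Metric.mem_nhds_iff.1 h1
  have h2 : path (ε / 2) ∈ CP 5 := by
    apply hb
    rw [Metric.mem_ball, Real.dist_eq, sub_zero, abs_of_pos (by positivity)]
    linarith
  have h3 := pair_nonneg h2
  rw [pair_path] at h3
  linarith

lemma cauchy5 (a b c d e : ℝ) :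
    (a + b + c + d + e) ^ 2 ≤ 5 * (a ^ 2 + b ^ 2 + c ^ 2 + d ^ 2 + e ^ 2) := by
  have h : 5 * (a ^ 2 + b ^ 2 + c ^ 2 + d ^ 2 + e ^ 2) - (a + b + c + d + e) ^ 2 =
      (a - b) ^ 2 + (a - c) ^ 2 + (a - d) ^ 2 + (a - e) ^ 2 + (b - c) ^ 2 + (b - d) ^ 2 +
      (b - e) ^ 2 + (c - d) ^ 2 + (c - e) ^ 2 + (d - e) ^ 2 := by ring
  have h2 : 0 ≤ (a - b) ^ 2 + (a - c) ^ 2 + (a - d) ^ 2 + (a - e) ^ 2 + (b - c) ^ 2 +
      (b - d) ^ 2 + (b - e) ^ 2 + (c - d) ^ 2 + (c - e) ^ 2 + (d - e) ^ 2 := by positivity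
  linarith

lemma M0_form (x : Fin 5 → ℝ) :
    4 / 25 * ∑ i, x i ^ 2 ≤ ∑ i, ∑ j, x i * M0 i j * x j := by
  set y0 := x 0 + x 1 with hy0
  set y1 := x 1 + x 2 with hy1
  set y2 := x 2 + x 3 with hy2
  set y3 := x 3 + x 4 with hy3
  set y4 := x 4 + x 0 with hy4
  have c0 := cauchy5 y0 (-y1) y2 (-y3) y4
  have c1 := cauchy5 y1 (-y2) y3 (-y4) y0
  have c2 := cauchy5 y2 (-y3) y4 (-y0) y1
  have c3 := cauchy5 y3 (-y4) y0 (-y1) y2
  have c4 := cauchy5 y4 (-y0) y1 (-y2) y3
  have d0 : y0 + -y1 + y2 + -y3 + y4 = 2 * x 0 := by simp only [hy0, hy1, hy2, hy3, hy4]; ring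
  have d1 : y1 + -y2 + y3 + -y4 + y0 = 2 * x 1 := by simp only [hy0, hy1, hy2, hy3, hy4]; ring
  have d2 : y2 + -y3 + y4 + -y0 + y1 = 2 * x 2 := by simp only [hy0, hy1, hy2, hy3, hy4]; ring
  have d3 : y3 + -y4 + y0 + -y1 + y2 = 2 * x 3 := by simp only [hy0, hy1, hy2, hy3, hy4]; ring
  have d4 : y4 + -y0 + y1 + -y2 + y3 = 2 * x 4 := by simp only [hy0, hy1, hy2, hy3, hy4]; ring
  rw [d0] at c0
  rw [d1] at c1
  rw [d2] at c2
  rw [d3] at c3
  rw [d4] at c4
  have e : ∑ i, ∑ j, x i * M0 i j * x j =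
      (x 4 + 2 * x 0 + x 1) ^ 2 + (x 0 + 2 * x 1 + x 2) ^ 2 + (x 1 + 2 * x 2 + x 3) ^ 2 +
      (x 2 + 2 * x 3 + x 4) ^ 2 + (x 3 + 2 * x 4 + x 0) ^ 2 +
      (y0 ^ 2 + y1 ^ 2 + y2 ^ 2 + y3 ^ 2 + y4 ^ 2) := by
    simp only [hy0, hy1, hy2, hy3, hy4]
    simp [M0, Fin.sum_univ_five]
    ring
  rw [e]
  have p : 0 ≤ (x 4 + 2 * x 0 + x 1) ^ 2 + (x 0 + 2 * x 1 + x 2) ^ 2 +
      (x 1 + 2 * x 2 + x 3) ^ 2 + (x 2 + 2 * x 3 + x 4) ^ 2 + (x 3 + 2 * x 4 + x 0) ^ 2 := by
    positivity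
  rw [Fin.sum_univ_five]
  clear_value y0 y1 y2 y3 y4
  linarith [c0, c1, c2, c3, c4, p]

lemma interior_of {M : Matrix (Fin 5) (Fin 5) ℝ} (hM : M.IsSymm) (hM1 : ∀ i j, 1 ≤ M i j)
    (hM2 : ∀ x : Fin 5 → ℝ, 4 / 25 * ∑ i, x i ^ 2 ≤ ∑ i, ∑ j, x i * M i j * x j) :
    (⟨M, hM⟩ : Sym 5) ∈ interior (DNN 5) := by
  rw [mem_interior]
  refine ⟨{X : Sym 5 | ∀ i j, |X.1 i j - M i j| < 1 / 100}, ?_, ?_, ?_⟩
  · intro X hX
    constructor
    · intro x
      have h1 : ∀ i j, x i * M i j * x j - 1 / 100 * (|x i| * |x j|) ≤ x i * X.1 i j * x j := by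
        intro i j
        have h2 : |x i * (X.1 i j - M i j) * x j| ≤ 1 / 100 * (|x i| * |x j|) := by
          rw [abs_mul, abs_mul]
          have h3 := (hX i j).le
          have h4 : 0 ≤ |x i| * |x j| := by positivity
          nlinarith [mul_le_mul_of_nonneg_left h3 h4]
        have h5 := (abs_le.1 h2).1
        have h6 : x i * (X.1 i j - M i j) * x j = x i * X.1 i j * x j - x i * M i j * x j := by
          ring
        linarith
      have h7 : ∑ i, ∑ j, (x i * M i j * x j - 1 / 100 * (|x i| * |x j|)) ≤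
          ∑ i, ∑ j, x i * X.1 i j * x j :=
        Finset.sum_le_sum fun i _ => Finset.sum_le_sum fun j _ => h1 i j
      have h8 : ∑ i, ∑ j, (x i * M i j * x j - 1 / 100 * (|x i| * |x j|)) =
          ∑ i, ∑ j, x i * M i j * x j - 1 / 100 * (∑ i, |x i|) ^ 2 := by
        simp only [Finset.sum_sub_distrib]
        congr 1
        rw [sq, Finset.sum_mul_sum, Finset.mul_sum]
        refine Finset.sum_congr rfl fun i _ => ?_
        rw [Finset.mul_sum]
      have h9 : (∑ i, |x i|) ^ 2 ≤ 5 * ∑ i, x i ^ 2 := by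
        have := cauchy5 |x 0| |x 1| |x 2| |x 3| |x 4|
        simpa [Fin.sum_univ_five, sq_abs] using this
      have h10 := hM2 x
      have h11 : 0 ≤ ∑ i, x i ^ 2 := Finset.sum_nonneg fun i _ => sq_nonneg _
      rw [h8] at h7
      linarith
    · intro i j
      have h1 := abs_lt.1 (hX i j)
      linarith [h1.1, hM1 i j]
  · rw [Set.ofPred_forall]
    refine isOpen_iInter_of_finite fun i => ?_
    rw [Set.ofPred_forall]
    refine isOpen_iInter_of_finite fun j => ?_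
    refine isOpen_lt ?_ continuous_const
    exact ((continuous_subtype_val.matrix_elem i j).sub continuous_const).abs
  · intro i j
    simp

lemma A0_interior : A0 ∈ interior (DNN 5) := by
  refine interior_of M0_symm (fun i j => ?_) M0_form
  fin_cases i <;> fin_cases j <;> simp [M0]

/-! ### A matrix with a unique square factorization -/

/-- The quadratic form of the circulant matrix with first row `(50, -45, 31, 31, -45)`, a copositive
matrix of Hildebrand type. -/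
def hil (x : Fin 5 → ℝ) : ℝ :=
  ∑ i, (50 * (x i * x i) - 90 * (x i * x (i + 1)) + 62 * (x i * x (i + 2)))

lemma hil_eq (x : Fin 5 → ℝ) (j : Fin 5) :
    50 * hil x = (31 * x j - 45 * x (j + 1) + 50 * x (j + 2) - 45 * x (j + 3) +
        31 * x (j + 4)) ^ 2 +
      19 * (9 * x j - 5 * x (j + 1) + 5 * x (j + 3) - 9 * x (j + 4)) ^ 2 +
      4180 * (x (j + 1) * x (j + 4)) + 836 * (x j * (5 * x (j + 3) - 4 * x (j + 4))) := by
  fin_cases j <;> simp [hil, Fin.sum_univ_five] <;> ring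

lemma exists_le' (x : Fin 5 → ℝ) (hx : ∀ i, 0 ≤ x i) :
    ∃ j : Fin 5, 4 * x (j + 4) ≤ 5 * x (j + 3) := by
  by_contra h
  push Not at h
  have h0 := h 0; have h1 := h 1; have h2 := h 2; have h3 := h 3; have h4 := h 4
  have p0 := hx 0; have p1 := hx 1; have p2 := hx 2; have p3 := hx 3; have p4 := hx 4
  simp at h0 h1 h2 h3 h4
  linarith

lemma hil_nonneg (x : Fin 5 → ℝ) (hx : ∀ i, 0 ≤ x i) : 0 ≤ hil x := by
  obtain ⟨j, hj⟩ := exists_le' x hx
  have h := hil_eq x j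
  have h1 := mul_nonneg (hx (j + 1)) (hx (j + 4))
  have h2 := mul_nonneg (hx j) (sub_nonneg.2 hj)
  have h3 := sq_nonneg (31 * x j - 45 * x (j + 1) + 50 * x (j + 2) - 45 * x (j + 3) +
        31 * x (j + 4))
  have h4 := sq_nonneg (9 * x j - 5 * x (j + 1) + 5 * x (j + 3) - 9 * x (j + 4))
  linarith

/-- The zeros of this form in the nonnegative orthant. -/
lemma hil_zero (x : Fin 5 → ℝ) (hx : ∀ i, 0 ≤ x i) (h : hil x = 0) :
    ∃ j : Fin 5, x (j + 2) = 0 ∧ x (j + 3) = 0 ∧ x (j + 1) = x (j + 4) ∧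
      5 * x j = 9 * x (j + 4) := by
  obtain ⟨j, hj⟩ := exists_le' x hx
  have h' := hil_eq x j
  rw [h] at h'
  have h1 := mul_nonneg (hx (j + 1)) (hx (j + 4))
  have h2 := mul_nonneg (hx j) (sub_nonneg.2 hj)
  have h3 := sq_nonneg (31 * x j - 45 * x (j + 1) + 50 * x (j + 2) - 45 * x (j + 3) +
        31 * x (j + 4))
  have h4 := sq_nonneg (9 * x j - 5 * x (j + 1) + 5 * x (j + 3) - 9 * x (j + 4))
  have e1 : x (j + 1) * x (j + 4) = 0 := by linarith
  have e2 : x j * (5 * x (j + 3) - 4 * x (j + 4)) = 0 := by linarith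
  have e3 : 31 * x j - 45 * x (j + 1) + 50 * x (j + 2) - 45 * x (j + 3) + 31 * x (j + 4) = 0 := by
    have : (31 * x j - 45 * x (j + 1) + 50 * x (j + 2) - 45 * x (j + 3) +
        31 * x (j + 4)) ^ 2 = 0 := by linarith
    exact pow_eq_zero_iff (two_ne_zero) |>.1 this
  have e4 : 9 * x j - 5 * x (j + 1) + 5 * x (j + 3) - 9 * x (j + 4) = 0 := by
    have : (9 * x j - 5 * x (j + 1) + 5 * x (j + 3) - 9 * x (j + 4)) ^ 2 = 0 := by linarith
    exact pow_eq_zero_iff (two_ne_zero) |>.1 this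
  have p0 := hx j; have p1 := hx (j + 1); have p2 := hx (j + 2); have p3 := hx (j + 3)
  have p4 := hx (j + 4)
  have a1 : j + 1 + 1 = j + 2 := by fin_cases j <;> rfl
  have a2 : j + 1 + 2 = j + 3 := by fin_cases j <;> rfl
  have a3 : j + 1 + 3 = j + 4 := by fin_cases j <;> rfl
  have a4 : j + 1 + 4 = j := by fin_cases j <;> rfl
  have b1 : j + 2 + 1 = j + 3 := by fin_cases j <;> rfl
  have b2 : j + 2 + 2 = j + 4 := by fin_cases j <;> rfl
  have b3 : j + 2 + 3 = j := by fin_cases j <;> rfl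
  have b4 : j + 2 + 4 = j + 1 := by fin_cases j <;> rfl
  have d1 : j + 3 + 1 = j + 4 := by fin_cases j <;> rfl
  have d2 : j + 3 + 2 = j := by fin_cases j <;> rfl
  have d3 : j + 3 + 3 = j + 1 := by fin_cases j <;> rfl
  have d4 : j + 3 + 4 = j + 2 := by fin_cases j <;> rfl
  by_cases c0 : x j = 0
  · rcases mul_eq_zero.1 e1 with c1 | c4
    · refine ⟨j + 3, ?_, ?_, ?_, ?_⟩
      · rw [d2]; exact c0
      · rw [d3]; exact c1
      · rw [d1, d4]; linarith
      · rw [d4]; linarith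
    · refine ⟨j + 2, ?_, ?_, ?_, ?_⟩
      · rw [b2]; exact c4
      · rw [b3]; exact c0
      · rw [b1, b4]; linarith
      · rw [b4]; linarith
  · have c3 : 5 * x (j + 3) = 4 * x (j + 4) := by
      rcases mul_eq_zero.1 e2 with h | h
      · exact absurd h c0
      · linarith
    rcases mul_eq_zero.1 e1 with c1 | c4
    · exfalso
      apply c0
      linarith
    · refine ⟨j + 1, ?_, ?_, ?_, ?_⟩
      · rw [a2]; linarith
      · rw [a3]; exact c4
      · rw [a1, a4]; linarith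
      · rw [a4]; linarith

/-- The second matrix. -/
def M1 : Matrix (Fin 5) (Fin 5) ℝ :=
  !![212, 135, 25, 25, 135; 135, 156, 90, 25, 50; 25, 90, 131, 90, 25; 25, 25, 90, 131, 90;
     135, 50, 25, 90, 156]

lemma M1_symm : M1.IsSymm := by
  ext i j
  fin_cases i <;> fin_cases j <;> simp [M1]

/-- The second matrix as a symmetric matrix. -/
def A1 : Sym 5 := ⟨M1, M1_symm⟩

/-- The pairing with the second copositive matrix. -/
def pair' (X : Matrix (Fin 5) (Fin 5) ℝ) : ℝ :=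
  ∑ i, (50 * X i i - 90 * X i (i + 1) + 62 * X i (i + 2))

lemma pair'_mul {m : ℕ} (B : Matrix (Fin 5) (Fin m) ℝ) :
    pair' (B * Bᵀ) = ∑ k, hil (fun i => B i k) := by
  unfold pair' hil
  rw [Finset.sum_comm]
  refine Finset.sum_congr rfl fun i _ => ?_
  simp only [Matrix.mul_apply, Matrix.transpose_apply]
  rw [Finset.sum_add_distrib, Finset.sum_sub_distrib, Finset.mul_sum, Finset.mul_sum,
    Finset.mul_sum]

lemma pair'_nonneg {A : Sym 5} (hA : A ∈ CP 5) : 0 ≤ pair' A.1 := by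
  obtain ⟨m, -, B, hB, h⟩ := hA
  rw [h, pair'_mul]
  exact Finset.sum_nonneg fun k _ => hil_nonneg _ fun i => hB i k

lemma pair'_M1 : pair' M1 = 0 := by
  simp [pair', M1, Fin.sum_univ_five]
  norm_num

lemma cols' {B : Matrix (Fin 5) (Fin 5) ℝ} (h : IsSquareFactorization A1 B) (k : Fin 5) :
    ∃ j : Fin 5, B (j + 2) k = 0 ∧ B (j + 3) k = 0 ∧ B (j + 1) k = B (j + 4) k ∧
      5 * B j k = 9 * B (j + 4) k := by
  have h1 : ∑ k, hil (fun i => B i k) = 0 := by
    rw [← pair'_mul, ← h.2]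
    exact pair'_M1
  have h2 := (Finset.sum_eq_zero_iff_of_nonneg
    (fun k _ => hil_nonneg (fun i => B i k) fun i => h.1 i k)).1 h1 k (Finset.mem_univ k)
  exact hil_zero _ (fun i => h.1 i k) h2

lemma reorder' {B : Matrix (Fin 5) (Fin 5) ℝ} (h : IsSquareFactorization A1 B) :
    ∃ e : Equiv.Perm (Fin 5), ∀ t, B (t + 2) (e t) = 0 ∧ B (t + 3) (e t) = 0 ∧
      B (t + 1) (e t) = B (t + 4) (e t) ∧ 5 * B t (e t) = 9 * B (t + 4) (e t) := by
  choose f hf using cols' h
  have hsurj : Function.Surjective f := by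
    intro t
    by_contra hne
    push Not at hne
    have h1 : A1.1 (t + 4) (t + 1) = 0 := by
      rw [h.2, Matrix.mul_apply]
      refine Finset.sum_eq_zero fun k _ => ?_
      rw [Matrix.transpose_apply]
      exact ne_type (x := fun i => B i k) (hf k).1 (hf k).2.1 (hne k).symm
    have h2 : (25 : ℝ) ≤ A1.1 (t + 4) (t + 1) := by
      fin_cases t <;> (simp [A1, M1]; try norm_num)
    linarith
  have hbij : Function.Bijective f := (Finite.injective_iff_surjective.2 hsurj).bijective_of_finite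
  let F := Equiv.ofBijective f hbij
  refine ⟨F.symm, fun t => ?_⟩
  have := hf (F.symm t)
  have e : f (F.symm t) = t := F.apply_symm_apply t
  rw [e] at this
  exact this

/-- The rational directions of the columns. -/
def U : Matrix (Fin 5) (Fin 5) ℚ :=
  !![9, 5, 0, 0, 5; 5, 9, 5, 0, 0; 0, 5, 9, 5, 0; 0, 0, 5, 9, 5; 5, 0, 0, 5, 9]

/-- The weights of the columns. -/
def w (t : Fin 5) : ℚ := if t = 0 then 2 else 1

/-- The square factorization of the second matrix. -/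
noncomputable def G : Matrix (Fin 5) (Fin 5) ℝ :=
  fun i t => Real.sqrt (w t : ℝ) * (U i t : ℝ)

lemma G_mul : M1 = G * Gᵀ := by
  have h2 : Real.sqrt 2 * Real.sqrt 2 = 2 := Real.mul_self_sqrt (by norm_num)
  ext i j
  fin_cases i <;> fin_cases j <;>
    simp [M1, G, U, w, Matrix.mul_apply, Fin.sum_univ_five] <;> nlinarith

lemma G_nonneg (i j : Fin 5) : 0 ≤ G i j := by
  unfold G
  apply mul_nonneg (Real.sqrt_nonneg _)
  have : (0 : ℚ) ≤ U i j := by
    fin_cases i <;> fin_cases j <;> simp [U]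
  exact_mod_cast this

/-- Uniqueness. -/
lemma unique {B : Matrix (Fin 5) (Fin 5) ℝ} (h : IsSquareFactorization A1 B) :
    ∃ e : Equiv.Perm (Fin 5), ∀ i t, B i (e t) = G i t := by
  obtain ⟨e, he⟩ := reorder' h
  refine ⟨e, ?_⟩
  have hA : ∀ i l, A1.1 i l = ∑ t, B i (e t) * B l (e t) := by
    intro i l
    rw [h.2, Matrix.mul_apply]
    simp only [Matrix.transpose_apply]
    exact (Equiv.sum_comp e (fun k => B i k * B l k)).symm
  have hsq : ∀ t, B (t + 4) (e t) * B (t + 4) (e t) = 25 * (w t : ℝ) := by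
    intro t
    have h1 : A1.1 (t + 4) (t + 1) = B (t + 4) (e t) * B (t + 4) (e t) := by
      rw [hA, Finset.sum_eq_single t]
      · rw [(he t).2.2.1]
      · intro s _ hs
        exact ne_type (x := fun i => B i (e s)) (he s).1 (he s).2.1 hs.symm
      · intro hn
        exact absurd (Finset.mem_univ t) hn
    rw [← h1]
    fin_cases t <;> (simp [A1, M1, w]; try norm_num)
  have h4 : ∀ t, B (t + 4) (e t) = Real.sqrt (w t : ℝ) * 5 := by
    intro t
    have hn := h.1 (t + 4) (e t)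
    have hw : (0 : ℝ) ≤ (w t : ℝ) := by
      have : (0 : ℚ) ≤ w t := by unfold w; split_ifs <;> norm_num
      exact_mod_cast this
    have h5 : Real.sqrt (w t : ℝ) * Real.sqrt (w t : ℝ) = (w t : ℝ) := Real.mul_self_sqrt hw
    have h6 := Real.sqrt_nonneg (w t : ℝ)
    have h7 : B (t + 4) (e t) * B (t + 4) (e t) =
        (Real.sqrt (w t : ℝ) * 5) * (Real.sqrt (w t : ℝ) * 5) := by
      rw [hsq t]
      linear_combination (-25) * h5
    exact (mul_self_inj hn (by positivity)).1 h7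
  have h1 : ∀ t, B (t + 1) (e t) = Real.sqrt (w t : ℝ) * 5 := fun t => by
    rw [(he t).2.2.1, h4 t]
  have h0 : ∀ t, B t (e t) = Real.sqrt (w t : ℝ) * 9 := fun t => by
    have := (he t).2.2.2
    rw [h4 t] at this
    linarith
  have h2 : ∀ t, B (t + 2) (e t) = 0 := fun t => (he t).1
  have h3 : ∀ t, B (t + 3) (e t) = 0 := fun t => (he t).2.1
  intro i t
  have hit : i = t ∨ i = t + 1 ∨ i = t + 2 ∨ i = t + 3 ∨ i = t + 4 := by
    fin_cases i <;> fin_cases t <;> simp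
  unfold G
  rcases hit with rfl | rfl | rfl | rfl | rfl
  · rw [h0]
    congr 1
    fin_cases i <;> simp [U]
  · rw [h1]
    congr 1
    fin_cases t <;> simp [U]
  · rw [h2]
    have : U (t + 2) t = 0 := by fin_cases t <;> simp [U]
    rw [this]
    simp
  · rw [h3]
    have : U (t + 3) t = 0 := by fin_cases t <;> simp [U]
    rw [this]
    simp
  · rw [h4]
    congr 1
    fin_cases t <;> simp [U]

/-- The matrices `A1 - t I`. -/
def path1 (t : ℝ) : Sym 5 := ⟨M1 - t • (1 : Matrix (Fin 5) (Fin 5) ℝ), by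
  have h1 : (t • (1 : Matrix (Fin 5) (Fin 5) ℝ)).IsSymm := by
    ext i j
    simp [Matrix.one_apply, eq_comm]
  exact M1_symm.sub h1⟩

lemma continuous_path1 : Continuous path1 := by
  unfold path1
  apply Continuous.subtype_mk
  exact continuous_const.sub (continuous_id.smul continuous_const)

lemma pair'_path1 (t : ℝ) : pair' (path1 t).1 = - 250 * t := by
  have : (path1 t).1 = M1 - t • (1 : Matrix (Fin 5) (Fin 5) ℝ) := rfl
  rw [this]
  simp [pair', M1, Fin.sum_univ_five]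
  ring

lemma A1_frontier : A1 ∈ frontier (CP 5) := by
  refine ⟨subset_closure ⟨5, by norm_num, G, G_nonneg, G_mul⟩, fun hint => ?_⟩
  have h0 : path1 0 = A1 := by
    apply Subtype.ext
    simp [path1, A1]
  have h1 : path1 ⁻¹' (CP 5) ∈ nhds (0 : ℝ) := by
    apply continuous_path1.continuousAt
    rw [h0]
    exact mem_interior_iff_mem_nhds.1 hint
  obtain ⟨ε, hε, hb⟩ := Metric.mem_nhds_iff.1 h1
  have h2 : path1 (ε / 2) ∈ CP 5 := by
    apply hb
    rw [Metric.mem_ball, Real.dist_eq, sub_zero, abs_of_pos (by positivity)]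
    linarith
  have h3 := pair'_nonneg h2
  rw [pair'_path1] at h3
  linarith

lemma cs5 (a b c d e y0 y1 y2 y3 y4 : ℝ) :
    (a * y0 + b * y1 + c * y2 + d * y3 + e * y4) ^ 2 ≤
      (a ^ 2 + b ^ 2 + c ^ 2 + d ^ 2 + e ^ 2) *
        (y0 ^ 2 + y1 ^ 2 + y2 ^ 2 + y3 ^ 2 + y4 ^ 2) := by
  have h : (a ^ 2 + b ^ 2 + c ^ 2 + d ^ 2 + e ^ 2) *
        (y0 ^ 2 + y1 ^ 2 + y2 ^ 2 + y3 ^ 2 + y4 ^ 2) -
      (a * y0 + b * y1 + c * y2 + d * y3 + e * y4) ^ 2 =
      (a * y1 - b * y0) ^ 2 + (a * y2 - c * y0) ^ 2 + (a * y3 - d * y0) ^ 2 +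
      (a * y4 - e * y0) ^ 2 + (b * y2 - c * y1) ^ 2 + (b * y3 - d * y1) ^ 2 +
      (b * y4 - e * y1) ^ 2 + (c * y3 - d * y2) ^ 2 + (c * y4 - e * y2) ^ 2 +
      (d * y4 - e * y3) ^ 2 := by ring
  have h2 : 0 ≤ (a * y1 - b * y0) ^ 2 + (a * y2 - c * y0) ^ 2 + (a * y3 - d * y0) ^ 2 +
      (a * y4 - e * y0) ^ 2 + (b * y2 - c * y1) ^ 2 + (b * y3 - d * y1) ^ 2 +
      (b * y4 - e * y1) ^ 2 + (c * y3 - d * y2) ^ 2 + (c * y4 - e * y2) ^ 2 +
      (d * y4 - e * y3) ^ 2 := by positivity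
  linarith

lemma M1_form (x : Fin 5 → ℝ) :
    4 / 25 * ∑ i, x i ^ 2 ≤ ∑ i, ∑ j, x i * M1 i j * x j := by
  obtain ⟨y0, hy0⟩ : ∃ y, y = 5 * x 4 + 9 * x 0 + 5 * x 1 := ⟨_, rfl⟩
  obtain ⟨y1, hy1⟩ : ∃ y, y = 5 * x 0 + 9 * x 1 + 5 * x 2 := ⟨_, rfl⟩
  obtain ⟨y2, hy2⟩ : ∃ y, y = 5 * x 1 + 9 * x 2 + 5 * x 3 := ⟨_, rfl⟩
  obtain ⟨y3, hy3⟩ : ∃ y, y = 5 * x 2 + 9 * x 3 + 5 * x 4 := ⟨_, rfl⟩
  obtain ⟨y4, hy4⟩ : ∃ y, y = 5 * x 3 + 9 * x 4 + 5 * x 0 := ⟨_, rfl⟩
  have c0 := cs5 101 (-70) 25 25 (-70) y0 y1 y2 y3 y4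
  have c1 := cs5 101 (-70) 25 25 (-70) y1 y2 y3 y4 y0
  have c2 := cs5 101 (-70) 25 25 (-70) y2 y3 y4 y0 y1
  have c3 := cs5 101 (-70) 25 25 (-70) y3 y4 y0 y1 y2
  have c4 := cs5 101 (-70) 25 25 (-70) y4 y0 y1 y2 y3
  have d0 : 101 * y0 + (-70) * y1 + 25 * y2 + 25 * y3 + (-70) * y4 = 209 * x 0 := by
    rw [hy0, hy1, hy2, hy3, hy4]; ring
  have d1 : 101 * y1 + (-70) * y2 + 25 * y3 + 25 * y4 + (-70) * y0 = 209 * x 1 := by
    rw [hy0, hy1, hy2, hy3, hy4]; ring
  have d2 : 101 * y2 + (-70) * y3 + 25 * y4 + 25 * y0 + (-70) * y1 = 209 * x 2 := by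
    rw [hy0, hy1, hy2, hy3, hy4]; ring
  have d3 : 101 * y3 + (-70) * y4 + 25 * y0 + 25 * y1 + (-70) * y2 = 209 * x 3 := by
    rw [hy0, hy1, hy2, hy3, hy4]; ring
  have d4 : 101 * y4 + (-70) * y0 + 25 * y1 + 25 * y2 + (-70) * y3 = 209 * x 4 := by
    rw [hy0, hy1, hy2, hy3, hy4]; ring
  rw [d0] at c0
  rw [d1] at c1
  rw [d2] at c2
  rw [d3] at c3
  rw [d4] at c4
  have e : ∑ i, ∑ j, x i * M1 i j * x j =
      y0 ^ 2 + (y0 ^ 2 + y1 ^ 2 + y2 ^ 2 + y3 ^ 2 + y4 ^ 2) := by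
    rw [hy0, hy1, hy2, hy3, hy4]
    simp [M1, Fin.sum_univ_five]
    ring
  rw [e, Fin.sum_univ_five]
  have p0 := sq_nonneg y0; have p1 := sq_nonneg y1; have p2 := sq_nonneg y2
  have p3 := sq_nonneg y3; have p4 := sq_nonneg y4
  clear d0 d1 d2 d3 d4 hy0 hy1 hy2 hy3 hy4 e
  linarith

lemma A1_interior : A1 ∈ interior (DNN 5) := by
  refine interior_of M1_symm (fun i j => ?_) M1_form
  fin_cases i <;> fin_cases j <;> simp [M1]

lemma G_rational {B : Matrix (Fin 5) (Fin 5) ℝ} (e : Equiv.Perm (Fin 5))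
    (he : ∀ i t, B i (e t) = G i t) : RationalI B := by
  intro j
  refine ⟨w (e.symm j), fun i => U i (e.symm j), ?_, fun i k => ?_⟩
  · unfold w
    split_ifs <;> norm_num
  · have h1 : ∀ i, B i j = G i (e.symm j) := fun i => by
      rw [← he i (e.symm j), Equiv.apply_symm_apply]
    have hw : (0 : ℝ) ≤ (w (e.symm j) : ℝ) := by
      have : (0 : ℚ) ≤ w (e.symm j) := by unfold w; split_ifs <;> norm_num
      exact_mod_cast this
    rw [h1 i, h1 k]
    unfold G
    have h5 : Real.sqrt (w (e.symm j) : ℝ) * Real.sqrt (w (e.symm j) : ℝ) = (w (e.symm j) : ℝ) :=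
      Real.mul_self_sqrt hw
    linear_combination ((U i (e.symm j) : ℝ) * (U k (e.symm j) : ℝ)) * h5

lemma G_irrational {B : Matrix (Fin 5) (Fin 5) ℝ} (e : Equiv.Perm (Fin 5))
    (he : ∀ i t, B i (e t) = G i t) : ¬ RationalII B := by
  intro h
  obtain ⟨q, hq⟩ := h 0 (e 0)
  rw [he] at hq
  simp [G, w, U] at hq
  apply irrational_sqrt_two
  refine ⟨q / 9, ?_⟩
  push_cast
  linarith

/-! ### The result -/

/-- (1) There is an integer matrix `A` in `∂CP_5 ∩ int DNN_5` which has square factorizations and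
such that for every square factorization `B` of `A` every column `b` of `B` has an entry with
irrational square; so no square factorization of `A` is rational in sense (i) or in sense (ii).
Moreover `A` has two square factorizations which do not differ by a permutation of the columns.

(2) There is an integer matrix `A` in `∂CP_5 ∩ int DNN_5` whose square factorization is unique up to
permutations of the columns and such that it is rational in sense (i) but not in sense (ii). -/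
theorem result :
    (∃ A : Sym 5, (∀ i j, ∃ z : ℤ, A.1 i j = (z : ℝ)) ∧
      A ∈ frontier (CP 5) ∧ A ∈ interior (DNN 5) ∧
      (∃ B C, IsSquareFactorization A B ∧ IsSquareFactorization A C ∧
        ∀ σ : Equiv.Perm (Fin 5), C ≠ B.submatrix id σ) ∧
      ∀ B, IsSquareFactorization A B →
        (∀ j, ∃ i, Irrational (B i j * B i j)) ∧ ¬ RationalI B ∧ ¬ RationalII B) ∧
    (∃ A : Sym 5, (∀ i j, ∃ z : ℤ, A.1 i j = (z : ℝ)) ∧
      A ∈ frontier (CP 5) ∧ A ∈ interior (DNN 5) ∧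
      (∃ B, IsSquareFactorization A B) ∧
      (∀ B C, IsSquareFactorization A B → IsSquareFactorization A C →
        ∃ σ : Equiv.Perm (Fin 5), C = B.submatrix id σ) ∧
      ∀ B, IsSquareFactorization A B → RationalI B ∧ ¬ RationalII B) := by
  constructor
  · refine ⟨A0, ?_, A0_frontier, A0_interior, ?_, ?_⟩
    · intro i j
      refine ⟨(!![8, 5, 1, 1, 5; 5, 8, 5, 1, 1; 1, 5, 8, 5, 1; 1, 1, 5, 8, 5; 5, 1, 1, 5, 8] :
        Matrix (Fin 5) (Fin 5) ℤ) i j, ?_⟩
      fin_cases i <;> fin_cases j <;> simp [A0, M0]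
    · have h5 : Real.sqrt 5 * Real.sqrt 5 = 5 := Real.mul_self_sqrt (by norm_num)
      have h1 : 1 < Real.sqrt 5 := by
        rw [show (1 : ℝ) = Real.sqrt 1 by simp]
        exact Real.sqrt_lt_sqrt (by norm_num) (by norm_num)
      refine ⟨F (Real.sqrt 5), (F (Real.sqrt 5))ᵀ, ⟨F_nonneg _ h1.le, F_mul _ h5⟩,
        ⟨fun i j => F_nonneg _ h1.le j i, F_mul' _ h5⟩, fun σ => F_perm _ h1 σ⟩
    · intro B hB
      have key : ∀ j, ∃ i, Irrational (B i j * B i j) := by
        obtain ⟨e, he⟩ := quad hB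
        intro j
        refine ⟨e.symm j + 4, ?_⟩
        have := irrational_of_quad (he (e.symm j))
        rwa [Equiv.apply_symm_apply] at this
      refine ⟨key, ?_, ?_⟩
      · intro h
        obtain ⟨i, hi⟩ := key 0
        obtain ⟨q, v, -, hv⟩ := h 0
        apply hi
        refine ⟨q * (v i * v i), ?_⟩
        rw [hv i i]
        push_cast
        ring
      · intro h
        obtain ⟨i, hi⟩ := key 0
        obtain ⟨q, hq⟩ := h i 0
        apply hi
        refine ⟨q * q, ?_⟩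
        rw [hq]
        push_cast
        ring
  · refine ⟨A1, ?_, A1_frontier, A1_interior, ⟨G, G_nonneg, G_mul⟩, ?_, ?_⟩
    · intro i j
      refine ⟨(!![212, 135, 25, 25, 135; 135, 156, 90, 25, 50; 25, 90, 131, 90, 25;
        25, 25, 90, 131, 90; 135, 50, 25, 90, 156] : Matrix (Fin 5) (Fin 5) ℤ) i j, ?_⟩
      fin_cases i <;> fin_cases j <;> simp [A1, M1]
    · intro B C hB hC
      obtain ⟨e, he⟩ := unique hB
      obtain ⟨f, hf⟩ := unique hC
      refine ⟨f.symm.trans e, ?_⟩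
      ext i j
      rw [Matrix.submatrix_apply, id, Equiv.trans_apply, he, ← hf, Equiv.apply_symm_apply]
    · intro B hB
      obtain ⟨e, he⟩ := unique hB
      exact ⟨G_rational e he, G_irrational e he⟩

end Pool.Agent.Results.MP_a20134_al.IrrationalSquareFactorizations
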